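import Pool.Agent.Mg.Fa6e297.G061d34

namespace Pool.Agent.Results.MP_a6e297_an.Gap

open Pool.Agent.MP_a6e297_an Filter
open scoped NNReal

universe u

/-- For a finite non-abelian group `A`, the lamplighter group `A ≀ ℤ` has Folner sequences, and
along every Folner sequence it has a scaling entropy growth gap. -/
theorem result (A : Type) [Group A] [Finite A] (hA : ∃ a b : A, a * b ≠ b * a) :
    (∃ F : ℕ → Finset (Lamplighter A), IsFolnerSeq F) ∧
    ∀ F : ℕ → Finset (Lamplighter A), IsFolnerSeq F →
      ∃ φ : ℕ → ℝ≥0, Tendsto φ atTop atTop ∧ IsUniformLowerBound.{u} (Lamplighter A) F φ :=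
  lamplighter_gap A hA

end Pool.Agent.Results.MP_a6e297_an.Gap
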